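import Pool.Agent.Helper73.KT.Glue

/-!
# Block F of MODULAR TOWERS: from the Hecke operators to Frobenius
-/

set_option autoImplicit false

namespace Pool.Agent.Helper44.MT

open Module

/-- If `F` is killed by the Hecke polynomial `X ^ 2 - T_p X + p R_p`, with commuting semisimple `T_p`
and `R_p`, and the discriminant has no kernel, then `F` is semisimple. -/
theorem frob {K H : Type*} [Field K] [IsAlgClosed K] [AddCommGroup H] [Module K H]
    [FiniteDimensional K H] (F Tp Rp : Module.End K H) (p : K)
    (rel : F * F - Tp * F + p • Rp = 0) (c1 : Commute Tp Rp) (c2 : Commute F Tp)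
    (c3 : Commute F Rp) (sT : Tp.IsSemisimple) (sR : Rp.IsSemisimple)
    (disc : ∀ (v : H) (a c : K), v ≠ 0 → Tp v = a • v → Rp v = c • v → a ^ 2 ≠ 4 * p * c) :
    F.IsSemisimple := by
  apply Pool.Agent.Helper73.KT.semisimple_of_iSup
  rw [eq_top_iff]
  have hT : ∀ a, Tp.maxGenEigenspace a = Tp.eigenspace a :=
    (End.isFinitelySemisimple_iff_isSemisimple.mpr sT).maxGenEigenspace_eq_eigenspace
  have hR : ∀ a, Rp.maxGenEigenspace a = Rp.eigenspace a :=
    (End.isFinitelySemisimple_iff_isSemisimple.mpr sR).maxGenEigenspace_eq_eigenspace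
  let f : Fin 3 → End K H := ![F, Tp, Rp]
  have htop : ⨆ χ : Fin 3 → K, ⨅ i, (f i).maxGenEigenspace (χ i) = ⊤ := by
    refine End.iSup_iInf_maxGenEigenspace_eq_top_of_iSup_maxGenEigenspace_eq_top_of_commute f ?_
      fun i => End.iSup_maxGenEigenspace_eq_top _
    intro i j hij
    fin_cases i <;> fin_cases j
    · exact absurd rfl hij
    · exact c2
    · exact c3
    · exact c2.symm
    · exact absurd rfl hij
    · exact c1
    · exact c3.symm
    · exact c1.symm
    · exact absurd rfl hij
  rw [← htop]
  refine iSup_le fun χ => ?_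
  intro v hv
  refine Submodule.mem_iSup_of_mem (χ 0) ?_
  have h0 : v ∈ F.maxGenEigenspace (χ 0) := (Submodule.mem_iInf _).1 hv 0
  have h1 : Tp v = χ 1 • v := by
    have h : v ∈ Tp.maxGenEigenspace (χ 1) := (Submodule.mem_iInf _).1 hv 1
    rw [hT] at h
    exact End.mem_eigenspace_iff.1 h
  have h2 : Rp v = χ 2 • v := by
    have h : v ∈ Rp.maxGenEigenspace (χ 2) := (Submodule.mem_iInf _).1 hv 2
    rw [hR] at h
    exact End.mem_eigenspace_iff.1 h
  rw [End.mem_eigenspace_iff]
  by_cases hv0 : v = 0
  · rw [hv0, map_zero, smul_zero]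
  set μ := χ 0
  set a := χ 1
  set c := χ 2
  -- the joint eigenspace
  let W : Submodule K H := Tp.eigenspace a ⊓ Rp.eigenspace c
  have hvW : v ∈ W := ⟨End.mem_eigenspace_iff.2 h1, End.mem_eigenspace_iff.2 h2⟩
  -- the quadratic relation on `W`
  have hrel : ∀ w ∈ W, F (F w) = a • F w - (p * c) • w := by
    intro w hw
    have h3 := LinearMap.congr_fun rel w
    have h4 : Tp w = a • w := End.mem_eigenspace_iff.1 hw.1
    have h5 : Rp w = c • w := End.mem_eigenspace_iff.1 hw.2
    have h6 : Tp (F w) = F (Tp w) := by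
      have := LinearMap.congr_fun c2.eq w
      simpa using this.symm
    simp only [LinearMap.add_apply, LinearMap.sub_apply, End.mul_apply, LinearMap.smul_apply,
      LinearMap.zero_apply] at h3
    rw [h6, h4, h5, map_smul, smul_smul] at h3
    have h7 : F (F w) - (a • F w - (p * c) • w) = 0 := by
      rw [← h3]; abel
    exact sub_eq_zero.1 h7
  have hFW : ∀ w ∈ W, F w ∈ W := by
    intro w hw
    have h4 : Tp w = a • w := End.mem_eigenspace_iff.1 hw.1
    have h5 : Rp w = c • w := End.mem_eigenspace_iff.1 hw.2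
    refine ⟨End.mem_eigenspace_iff.2 ?_, End.mem_eigenspace_iff.2 ?_⟩
    · have h6 := LinearMap.congr_fun c2.eq w
      simp only [End.mul_apply] at h6
      rw [← h6, h4, map_smul]
    · have h6 := LinearMap.congr_fun c3.eq w
      simp only [End.mul_apply] at h6
      rw [← h6, h5, map_smul]
  obtain ⟨n, hn⟩ := (End.mem_maxGenEigenspace F μ v).1 h0
  -- `d = F - μ` on `W`
  have key : ∀ n : ℕ, ∀ w ∈ W, w ≠ 0 → ((F - μ • (1 : End K H)) ^ n) w = 0 → F w = μ • w := by
    intro n
    induction n with
    | zero =>
      intro w _ hw0 h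
      exact absurd h (by simpa using hw0)
    | succ n ih =>
      intro w hw hw0 h
      rw [pow_succ, End.mul_apply] at h
      by_contra hne
      set u := (F - μ • (1 : End K H)) w with hu
      have hu' : u = F w - μ • w := by
        rw [hu, LinearMap.sub_apply, LinearMap.smul_apply, End.one_apply]
      have hu0 : u ≠ 0 := by
        rw [hu']
        exact sub_ne_zero.2 hne
      have huW : u ∈ W := by
        rw [hu']
        exact W.sub_mem (hFW w hw) (W.smul_mem μ hw)
      have hFu : F u = μ • u := ih u huW hu0 h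
      have h3 : F w = μ • w + u := by rw [hu']; abel
      have h4 := hrel w hw
      rw [h3, map_add, map_smul, h3, hFu] at h4
      have h5 := hrel u huW
      rw [hFu, map_smul, hFu, smul_smul] at h5
      have h6 : (μ * μ - a * μ + p * c) • u = 0 := by
        have : (μ * μ - a * μ + p * c) • u =
            (μ * μ) • u - (a • μ • u - (p * c) • u) := by module
        rw [this, h5, sub_self]
      have h7 : μ * μ - a * μ + p * c = 0 := (smul_eq_zero.1 h6).resolve_right hu0
      have h8 : (2 * μ - a) • u = 0 := by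
        have h9 : (μ * μ - a * μ + p * c) • w + (2 * μ - a) • u =
            (μ • (μ • w + u) + μ • u) - (a • (μ • w + u) - (p * c) • w) := by module
        have h10 : (μ * μ - a * μ + p * c) • w + (2 * μ - a) • u = 0 := by
          rw [h9, h4, sub_self]
        rwa [h7, zero_smul, zero_add] at h10
      have h9 : 2 * μ - a = 0 := (smul_eq_zero.1 h8).resolve_right hu0
      refine disc w a c hw0 (End.mem_eigenspace_iff.1 hw.1) (End.mem_eigenspace_iff.1 hw.2) ?_
      linear_combination (2 * μ - a) * h9 - 4 * h7
  exact key n v hvW hv0 hn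

end Pool.Agent.Helper44.MT
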